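import Pool.Agent.U709.FF.All

/-!
# The intersection of the maximal subgroups of finite index in subgroups of mapping class groups

For a group `G` let `PhiF G` be the intersection of the maximal subgroups of finite index of `G` (`G`
itself if there are none). Masbaum and Reid asked whether `PhiF G` is nilpotent for all finitely
generated subgroups `G` of the mapping class group of a compact orientable surface, as for
finitely generated linear groups (Platonov). We show that this is the case, and it holds for all
subgroups, finitely generated or not.

`VirtEig Γ x` means: there are a subgroup `H` of finite index in `Γ`, a homomorphism `ρ : H → GL_n(ℤ)` and a
power `x ^ m` in `H` such that `ρ (x ^ m)` has a complex eigenvalue which is not a root of unity.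

* (1) Let `G` be any group. No element of the commutator subgroup of `PhiF G` has the property
  `VirtEig G x`: in all virtual integral representations of `G` these elements have powers all of whose
  eigenvalues are roots of unity. This is unconditional.
* (2) Let `Γ` be a group with the following properties (`MCG Γ`):
  * `tits`: each subgroup which does not contain a nonabelian free group is finitely generated and has
    an abelian subgroup of finite index;
  * `sep`: each abelian subgroup is an intersection of subgroups of finite index;
  * `eig`: each subgroup which contains a nonabelian free group contains an element `x` with `VirtEig Γ x`.

  Then for each subgroup `G` of `Γ` the group `PhiF G` is nilpotent, finitely generated, and has an abelian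
  subgroup of finite index (`PhiNil G`).
* (3) In particular this holds if `Γ` is the group `MapClass S` of the isotopy classes of homeomorphisms of a
  topological space `S`, and `MapClass S` has these properties.

If `S` is a compact connected orientable surface, possibly with boundary (or punctures), then
`MapClass S` is the extended mapping class group, it contains `Mod_S` as a subgroup of index one or two, and
it has the three properties by published theorems: `tits` is the Tits alternative of Ivanov and McCarthy
together with the theorem of Birman, Lubotzky and McCarthy on solvable subgroups; `sep` is a theorem of
Leininger and McReynolds; and `eig` follows from the theorem of Yi Liu (Virtual homological spectral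
radii for automorphisms of surfaces, J. Amer. Math. Soc. 33 (2020)) that every mapping class of positive
entropy has a lift to a finite cover with a homological eigenvalue outside the unit circle, since by
Ivanov a subgroup without elements of positive entropy is virtually abelian. (The action on
the first homology of a finite cover is defined on a subgroup of finite index of the mapping
class group, as the group of deck transformations is a finite normal subgroup of the group of
the lifts, and the latter has torsion-free subgroups of finite index.)

Outline of the proof. (1) Let `x` be a product of commutators of `N = PhiF G`, and `ρ : H → GL_n(ℤ)`. For each
prime `p` a finite quotient `Q` of `G` is defined by `ρ` modulo `p`. The image of `N` in `Q` is contained in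
the Frattini subgroup of `Q`, so it is nilpotent. Let `q` be a prime larger than `n` and the index of `H`,
`q ≠ p`. The `q`-Sylow subgroup of the image of `N` is contained in the image of `H`, and abelian, since
`q`-groups of matrices of degree less than `q` over a field of characteristic `p` are
abelian. By transfer to the centre of the image of `N`, the order of the image of `x` in `Q` is prime
to `q`. So if `z` is an eigenvalue of `ρ (x ^ m)`, an algebraic integer, then the orders of `z` modulo all
primes have only prime divisors which are not larger than a constant `B`. If `m = 1 + M k` for a
suitable `M`, then `(z ^ m - 1) / (z - 1)` is not divisible by any prime, so it is a unit, and the norm of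
`z ^ m - 1` does not depend on `k`. If a conjugate of `z` has an absolute value larger than one, then these
norms are unbounded; so all conjugates have absolute value at most one, and `z` is a root of unity
by Kronecker's theorem.

(2) By (1) and `eig`, the commutator subgroup of `N` contains no nonabelian free group, so neither does
`N`, and `N` is finitely generated and virtually abelian by `tits`. Let `A` be the subgroup generated by
the `e`-th powers of `N` for a suitable `e`, it is free abelian, normal in `G`, and has finite index in `N`.
By `sep`, the finite group `N / A ^ p` embeds in a finite quotient of `G`, hence it is nilpotent. If `p` does
not divide the index of `A` in `N`, it follows that `A / A ^ p` is central. So `A` is central in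
`N`, and `N / A` is nilpotent.
-/

set_option autoImplicit false

namespace Pool.Agent.Results.MP_5273fc_al.FrattiniOfMappingClassSubgroups

open Pool.Agent.U709.FF

theorem result :
    (∀ (G : Type) [Group G], ∀ x ∈ ⁅PhiF G, PhiF G⁆, ¬ VirtEig G x) ∧
    (∀ (Γ : Type) [Group Γ], MCG Γ → ∀ G : Subgroup Γ, PhiNil G) ∧
    (∀ (S : Type) [TopologicalSpace S], MCG (MapClass S) → ∀ G : Subgroup (MapClass S),
      PhiNil G) :=
  ⟨fun _ _ x hx => one' x hx, fun _ _ h G => main' h G, fun _ _ h G => main' h G⟩

end Pool.Agent.Results.MP_5273fc_al.FrattiniOfMappingClassSubgroups
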